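import Mathlib
import Pool.Agent.Helper43_HAM.Stmts

/-!
# HAM, module UNI: every relation between finite sets is computed by a network
-/

namespace Pool.Agent.HAM.H41

open Equiv

lemma sep_comp {Ω Ω' : Type} {X : List (Ω → Bool)} (hX : Separating X) (f : Ω' → Ω)
    (hf : Function.Injective f) : Separating (X.map (· ∘ f)) := by
  intro a b h
  apply hf
  apply hX
  intro x hx
  exact h (x ∘ f) (List.mem_map.2 ⟨x, hx, rfl⟩)

lemma bit_comp {Ω Ω' : Type} (X : List (Ω → Bool)) (f : Ω' → Ω) :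
    (X.map bit).map (· ∘ f) = (X.map (· ∘ f)).map bit := by
  rw [List.map_map, List.map_map]
  rfl

lemma refs_comp {Ω Ω' : Type} (f : Ω' → Ω) :
    (refs : List (Ω → Fin 3)).map (· ∘ f) = refs := rfl

lemma wires_comp {Ω Ω' : Type} (X : List (Ω → Bool)) (f : Ω' → Ω) :
    (refs ++ X.map bit).map (· ∘ f) = refs ++ (X.map (· ∘ f)).map bit := by
  rw [List.map_append, refs_comp, bit_comp]

lemma perm_right (hTCO : TcoStmt) (hTPE : TpeStmt) {Ω Ω' : Type} [Fintype Ω] [DecidableEq Ω]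
    [Fintype Ω'] [DecidableEq Ω'] {π : Ω' → Ω} {U : List (Ω → Fin 3)} {U' U'' : List (Ω' → Fin 3)}
    (h : Tr π U U') (hp : U'.Perm U'') (h2 : 2 ≤ U'.length) : Tr π U U'' :=
  hTCO Ω Ω' Ω' π id U U' U'' h (hTPE Ω' U' U'' hp h2)

lemma refl (hTPE : TpeStmt) {Ω : Type} [Fintype Ω] [DecidableEq Ω] (X : List (Ω → Bool)) :
    Tr id (refs ++ X.map bit) (refs ++ X.map bit) :=
  hTPE Ω _ _ (List.Perm.refl _) (by simp [refs])

/-- guess `k` bits -/
lemma guess (hTCO : TcoStmt) (hTCX : TcxStmt) (hTEQ : TeqStmt) (hTPE : TpeStmt) (hGUE : GueStmt)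
    {Ω : Type} [Fintype Ω] [DecidableEq Ω] (X : List (Ω → Bool)) (hX : Separating X) :
    ∀ k : ℕ, ∃ Z : List (Ω × (Fin k → Bool) → Bool), Separating Z ∧
      Tr (Prod.fst : Ω × (Fin k → Bool) → Ω) (refs ++ X.map bit) (refs ++ Z.map bit) := by
  intro k
  induction k with
  | zero =>
    let e : Ω × (Fin 0 → Bool) ≃ Ω := ⟨Prod.fst, fun ω => (ω, Fin.elim0),
      fun p => Prod.ext rfl (Subsingleton.elim _ _), fun ω => rfl⟩
    refine ⟨X.map (· ∘ e), sep_comp hX e e.injective, ?_⟩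
    have h := hTEQ Ω Ω (Ω × (Fin 0 → Bool)) id e _ _ (refl hTPE X)
    rw [wires_comp] at h
    exact h
  | succ k ih =>
    obtain ⟨Z, hZ, hT⟩ := ih
    let e : Ω × (Fin (k + 1) → Bool) ≃ (Ω × (Fin k → Bool)) × Bool :=
      ⟨fun p => ((p.1, Fin.tail p.2), p.2 0), fun p => (p.1.1, Fin.cons p.2 p.1.2),
        fun p => by simp, fun p => by simp⟩
    have h1 := hGUE (Ω × (Fin k → Bool))
    have h2 := hTCX _ _ (Prod.fst : (Ω × (Fin k → Bool)) × Bool → Ω × (Fin k → Bool)) refs []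
      (Z.map bit) _ h1
    rw [bit_comp] at h2
    have h3 := hTCO _ _ _ _ _ _ _ _ hT h2
    have h4 := hTEQ _ _ _ _ e _ _ h3
    let Z1 : List ((Ω × (Fin k → Bool)) × Bool → Bool) := Prod.snd :: Z.map (· ∘ Prod.fst)
    have hZ1 : Separating Z1 := by
      intro a b hab
      have e1 : a.2 = b.2 := hab _ (List.mem_cons_self ..)
      have e2 : a.1 = b.1 := by
        apply hZ
        intro x hx
        exact hab (x ∘ Prod.fst) (List.mem_cons_of_mem _ (List.mem_map.2 ⟨x, hx, rfl⟩))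
      exact Prod.ext e2 e1
    refine ⟨Z1.map (· ∘ e), sep_comp hZ1 e e.injective, ?_⟩
    rw [← wires_comp]
    have h5 : (([] : List ((Ω × (Fin k → Bool)) × Bool → Fin 3)).map (· ∘ (id : _ → _)) : List _) =
        [] := rfl
    have h6 : ((List.map (fun x => x ∘ Prod.fst) ([] : List (Ω × (Fin k → Bool) → Fin 3))) ++
        (refs ++ [bit Prod.snd] ++ List.map bit (List.map (fun x => x ∘ Prod.fst) Z)) :
        List ((Ω × (Fin k → Bool)) × Bool → Fin 3)) = refs ++ Z1.map bit := by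
      simp [Z1]
    rw [h6] at h4
    exact h4

/-- compute bits -/
lemma compute (hTCO : TcoStmt) (hTPE : TpeStmt) (hBOO : BooStmt)
    {Ω : Type} [Fintype Ω] [DecidableEq Ω] (Y : List (Ω → Bool)) : ∀ X : List (Ω → Bool),
    Separating X → Tr id (refs ++ X.map bit) (refs ++ (X ++ Y).map bit) := by
  induction Y with
  | nil =>
    intro X hX
    rw [List.append_nil]
    exact refl hTPE X
  | cons y Y ih =>
    intro X hX
    have h1 := hBOO Ω X y hX
    have hX2 : Separating (X ++ [y]) := by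
      intro a b hab
      exact hX a b fun x hx => hab x (List.mem_append_left _ hx)
    have h2 := ih (X ++ [y]) hX2
    rw [List.append_assoc] at h2
    have e1 : (X ++ [y]).map bit = X.map bit ++ [bit y] := by simp
    rw [e1] at h2
    exact hTCO Ω Ω Ω id id _ _ _ h1 h2

/-- delete bits -/
lemma delete (hTCO : TcoStmt) (hTCX : TcxStmt) (hTPE : TpeStmt) (hGAT : GatStmt)
    {Ω : Type} [Fintype Ω] [DecidableEq Ω] (Y : List (Ω → Bool)) : ∀ X : List (Ω → Bool),
    Tr id (refs ++ (X ++ Y).map bit) (refs ++ Y.map bit) := by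
  intro X
  induction X with
  | nil => exact refl hTPE Y
  | cons x X ih =>
    have h1 := (hGAT Ω x x).2.2.2.1
    have h2 := hTCX Ω Ω id (refs ++ [bit x]) [] ((X ++ Y).map bit) refs h1
    have e1 : ([] ++ (refs ++ [bit x] ++ (X ++ Y).map bit) : List (Ω → Fin 3)) =
        refs ++ (x :: X ++ Y).map bit := by simp
    have e2 : (([] : List (Ω → Fin 3)).map (· ∘ (id : Ω → Ω)) ++
        (refs ++ ((X ++ Y).map bit).map (· ∘ (id : Ω → Ω)))) = refs ++ (X ++ Y).map bit := by
      rw [bit_comp]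
      simp
    rw [e1, e2] at h2
    exact hTCO Ω Ω Ω id id _ _ _ h2 ih

theorem uni (hTCO : TcoStmt) (hTCX : TcxStmt) (hTEQ : TeqStmt) (hTPE : TpeStmt) (hGAT : GatStmt)
    (hGUE : GueStmt) (hFIL : FilStmt) (hBOO : BooStmt) : UniStmt := by
  intro Ω Ω' _ _ _ _ π X Y hX
  classical
  let k := Fintype.card Ω'
  let c : Ω' → Fin k → Bool := fun ω i => decide (Fintype.equivFin Ω' ω = i)
  have hc : Function.Injective c := by
    intro a b hab
    have h := congrFun hab (Fintype.equivFin Ω' b)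
    simp only [c, decide_eq_decide, iff_true] at h
    exact (Fintype.equivFin Ω').injective h
  obtain ⟨Z, hZ, hT⟩ := guess hTCO hTCX hTEQ hTPE hGUE X hX k
  let g : Ω × (Fin k → Bool) → Bool := fun p => decide (∃ ω', π ω' = p.1 ∧ c ω' = p.2)
  -- compute the bit `g`
  have h1 := hBOO _ Z g hZ
  have h2 := hTCO _ _ _ _ _ _ _ _ hT h1
  have hp : (refs ++ (Z.map bit ++ [bit g])).Perm (refs ++ [bit g] ++ Z.map bit) := by
    rw [List.append_assoc]
    exact List.Perm.append_left _ List.perm_append_comm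
  have h3 := perm_right hTCO hTPE h2 hp (by simp [refs])
  -- filter
  have h4 := hFIL _ g
  have h5 := hTCX _ _ _ _ [] (Z.map bit) _ h4
  rw [bit_comp] at h5
  have h6 := hTCO _ _ _ _ _ _ _ _ h3 h5
  -- rename
  let f : Ω' → {p : Ω × (Fin k → Bool) // g p = true} :=
    fun ω => ⟨(π ω, c ω), decide_eq_true ⟨ω, rfl, rfl⟩⟩
  have hf : Function.Bijective f := by
    constructor
    · intro a b hab
      have h := congrArg (fun q => q.1.2) hab
      exact hc h
    · rintro ⟨⟨ω, d⟩, hd⟩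
      obtain ⟨ω', h7, h8⟩ := of_decide_eq_true hd
      refine ⟨ω', ?_⟩
      apply Subtype.ext
      exact Prod.ext h7 h8
  let e : Ω' ≃ {p : Ω × (Fin k → Bool) // g p = true} := Equiv.ofBijective f hf
  have h7 := hTEQ _ _ _ _ e _ _ h6
  let Z' : List (Ω' → Bool) := (Z.map (· ∘ Subtype.val)).map (· ∘ e)
  have hZ' : Separating Z' := sep_comp (sep_comp hZ _ Subtype.val_injective) e e.injective
  have e1 : (([] : List (Ω × (Fin k → Bool) → Fin 3)).map
      (· ∘ (Subtype.val : {p : Ω × (Fin k → Bool) // g p = true} → _)) ++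
      (refs ++ List.map bit (List.map (fun x => x ∘ Subtype.val) Z))).map (· ∘ e) =
      refs ++ Z'.map bit := by
    rw [List.map_nil, List.nil_append]
    exact wires_comp _ _
  rw [e1] at h7
  -- compute and delete
  have h8 := compute hTCO hTPE hBOO Y Z' hZ'
  have h9 := delete hTCO hTCX hTPE hGAT Y Z'
  have h10 := hTCO _ _ _ _ _ _ _ _ (hTCO _ _ _ _ _ _ _ _ h7 h8) h9
  exact h10

end Pool.Agent.HAM.H41
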